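import Mathlib

set_option autoImplicit false
open Set Filter Topology MeasureTheory

namespace Pool.Agent.Results.MP_ee56ef_an.NotConverse

/-- The achievement set of a sequence. -/
def ach (x : ℕ → ℝ) : Set ℝ := {s | ∃ A : Set ℕ, s = ∑' t, A.indicator x t}

/-- The multigeometric sequence: term number t (from 0) is k (t mod m) / n ^ (t div m + 1). -/
noncomputable def mgeo (m : ℕ) (k : ℕ → ℕ) (n : ℕ) (t : ℕ) : ℝ :=
  (k (t % m) : ℝ) / (n : ℝ) ^ (t / m + 1)

/-- The set of subsums of k 0, ..., k (m-1). -/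
def subsums (m : ℕ) (k : ℕ → ℕ) : Finset ℕ := (Finset.range m).powerset.image fun S => ∑ i ∈ S, k i

def kk (i : ℕ) : ℕ := if i = 0 then 1 else if i = 1 then 8 else 16

lemma x_nonneg (t : ℕ) : 0 ≤ mgeo 4 kk 12 t := by unfold mgeo; positivity

lemma x_shift (t : ℕ) : mgeo 4 kk 12 (t + 4) = mgeo 4 kk 12 t / 12 := by
  simp only [mgeo, Nat.add_mod_right, Nat.add_div_right _ (show 0 < 4 by norm_num), pow_succ]
  push_cast; field_simp

lemma x_le (t : ℕ) : mgeo 4 kk 12 t ≤ 16 * (3 / 4) ^ t := by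
  induction t using Nat.strong_induction_on with
  | _ t ih =>
    rcases lt_or_ge t 4 with h | h
    · interval_cases t <;> norm_num [mgeo, kk]
    · obtain ⟨s, rfl⟩ := Nat.exists_eq_add_of_le' h
      rw [x_shift, pow_add]
      have := ih s (by omega)
      have : (0:ℝ) < (3 / 4) ^ s := by positivity
      nlinarith

lemma geo : Summable fun t : ℕ => 16 * (3 / 4 : ℝ) ^ t :=
  (summable_geometric_of_lt_one (by norm_num) (by norm_num)).mul_left 16

lemma ind_le (A : Set ℕ) (t : ℕ) : ‖A.indicator (mgeo 4 kk 12) t‖ ≤ 16 * (3 / 4) ^ t := by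
  rw [Real.norm_of_nonneg (indicator_nonneg (fun t _ => x_nonneg t) t)]
  exact (indicator_le_self' (fun t _ => x_nonneg t) t).trans (x_le t)

lemma ind_sum (A : Set ℕ) : Summable (A.indicator (mgeo 4 kk 12)) := geo.of_norm_bounded (ind_le A)

lemma compact : IsCompact (ach (mgeo 4 kk 12)) := by
  have : ach (mgeo 4 kk 12) =
      range fun b : ℕ → Bool => ∑' t, {t | b t = true}.indicator (mgeo 4 kk 12) t := by
    ext s
    constructor
    · rintro ⟨A, rfl⟩
      classical
      exact ⟨fun t => decide (t ∈ A), by simp⟩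
    · rintro ⟨b, rfl⟩; exact ⟨_, rfl⟩
  rw [this]
  refine isCompact_range (continuous_tsum (fun t => ?_) geo fun t b => ind_le _ t)
  exact (continuous_of_discreteTopology
    (f := fun c : Bool => if c = true then mgeo 4 kk 12 t else 0)).comp (continuous_apply t) |>.congr
    fun b => by simp [indicator]

lemma prep (S : Finset ℕ) (hS : S ⊆ Finset.range 4) {e : ℝ} (he : e ∈ ach (mgeo 4 kk 12)) :
    (((∑ i ∈ S, kk i : ℕ) : ℝ) + e) / 12 ∈ ach (mgeo 4 kk 12) := by
  obtain ⟨A, rfl⟩ := he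
  refine ⟨{t | t ∈ S ∨ ∃ s ∈ A, t = s + 4}, ?_⟩
  rw [add_div, ← tsum_div_const,
    ← (ind_sum {t | t ∈ S ∨ ∃ s ∈ A, t = s + 4}).sum_add_tsum_nat_add 4]
  congr 1
  · rw [Nat.cast_sum, Finset.sum_div, ← Finset.sum_subset hS]
    · refine Finset.sum_congr rfl fun i hi => ?_
      have := Finset.mem_range.1 (hS hi)
      rw [indicator_of_mem (by simp [hi]), mgeo, Nat.mod_eq_of_lt this, Nat.div_eq_of_lt this]
      simp
    · intro i hi hn
      have := Finset.mem_range.1 hi
      refine indicator_of_notMem ?_ _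
      rintro (h | ⟨s, -, h⟩)
      · exact hn h
      · omega
  · refine tsum_congr fun t => ?_
    by_cases h : t ∈ A
    · rw [indicator_of_mem h, indicator_of_mem (show t + 4 ∈ {t | t ∈ S ∨ ∃ s ∈ A, t = s + 4} from Or.inr ⟨t, h, rfl⟩), x_shift]
    · rw [indicator_of_notMem h, indicator_of_notMem, zero_div]
      rintro (h' | ⟨s, hs, h'⟩)
      · have := Finset.mem_range.1 (hS h'); omega
      · exact h (by rwa [show t = s by omega])

lemma prep' (σ : ℕ) (h : σ ∈ subsums 4 kk) {e : ℝ} (he : e ∈ ach (mgeo 4 kk 12)) :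
    ((σ : ℝ) + e) / 12 ∈ ach (mgeo 4 kk 12) := by
  obtain ⟨S, hS, rfl⟩ := Finset.mem_image.1 h
  exact prep S (Finset.mem_powerset.1 hS) he

lemma dense_mod (N : ℕ) (r : ℤ) : ∃ c : ℤ, (r : ℝ) / 12 ^ N + c ∈ ach (mgeo 4 kk 12) ∧
    (r : ℝ) / 12 ^ N + c + 2 ∈ ach (mgeo 4 kk 12) := by
  induction N with
  | zero =>
    have h0 : (0:ℝ) ∈ ach (mgeo 4 kk 12) := ⟨∅, by simp⟩
    have := prep' 24 (by decide) h0
    refine ⟨-r, by simpa using h0, ?_⟩
    convert this using 1
    push_cast; ring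
  | succ N ih =>
    obtain ⟨c, h1, h2⟩ := ih
    have key : ∀ ρ < 12, ∃ σ ∈ subsums 4 kk, σ + 24 ∈ subsums 4 kk ∧
        ((σ + ρ) % 12 = 0 ∨ (σ + 2 + ρ) % 12 = 0) := by decide
    obtain ⟨σ, s1, s2, h⟩ := key (c % 12).toNat (by omega)
    rcases h with h | h
    · obtain ⟨d, hd⟩ : (12:ℤ) ∣ σ + c := by omega
      have hd' : (σ:ℝ) + c = 12 * d := by exact_mod_cast hd
      refine ⟨d, ?_, ?_⟩
      · convert prep' σ s1 h1 using 1
        rw [pow_succ, ← div_div]; linarith
      · convert prep' _ s2 h1 using 1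
        rw [pow_succ, ← div_div]; push_cast; linarith
    · obtain ⟨d, hd⟩ : (12:ℤ) ∣ σ + 2 + c := by omega
      have hd' : (σ:ℝ) + 2 + c = 12 * d := by exact_mod_cast hd
      refine ⟨d, ?_, ?_⟩
      · convert prep' σ s1 h2 using 1
        rw [pow_succ, ← div_div]; linarith
      · convert prep' _ s2 h2 using 1
        rw [pow_succ, ← div_div]; push_cast; linarith

lemma pos : 0 < volume (ach (mgeo 4 kk 12)) := by
  rw [pos_iff_ne_zero]
  intro h0
  obtain ⟨M, hM⟩ := compact.isBounded.exists_norm_le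
  obtain ⟨K, hK⟩ := exists_nat_ge (M + 1)
  set U : Set ℝ := ⋃ c ∈ Finset.Icc (-(K:ℤ)) K, (fun x : ℝ => x + c) ⁻¹' ach (mgeo 4 kk 12) with hU
  have hc : IsClosed U := isClosed_biUnion_finset fun c _ =>
    compact.isClosed.preimage (continuous_add_const _)
  have hz : volume U = 0 := (measure_biUnion_null_iff (Finset.countable_toSet _)).2 fun c _ => by
    rw [measure_preimage_add_right, h0]
  have hs : Icc (0:ℝ) 1 ⊆ U := by
    intro x hx
    have ht : Tendsto (fun N : ℕ => (⌊x * 12 ^ N⌋ : ℝ) / 12 ^ N) atTop (𝓝 x) := by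
      have h1 : Tendsto (fun N : ℕ => x - (1 / 12 : ℝ) ^ N) atTop (𝓝 x) := by
        simpa using tendsto_const_nhds.sub (tendsto_pow_atTop_nhds_zero_of_lt_one
          (r := (1 / 12 : ℝ)) (by norm_num) (by norm_num))
      refine tendsto_of_tendsto_of_tendsto_of_le_of_le h1 tendsto_const_nhds (fun N => ?_) fun N => ?_
      · have := Int.lt_floor_add_one (x * 12 ^ N)
        simp only
        rw [le_div_iff₀ (by positivity), sub_mul, ← mul_pow]
        norm_num; linarith
      · simp only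
        rw [div_le_iff₀ (by positivity)]; exact Int.floor_le _
    refine hc.mem_of_tendsto ht (Eventually.of_forall fun N => ?_)
    obtain ⟨c, h1, -⟩ := dense_mod N ⌊x * 12 ^ N⌋
    have a0 : (0:ℝ) ≤ (⌊x * 12 ^ N⌋ : ℝ) / 12 ^ N := by
      have : 0 ≤ ⌊x * 12 ^ N⌋ := Int.floor_nonneg.2 (mul_nonneg hx.1 (by positivity))
      positivity
    have a1 : (⌊x * 12 ^ N⌋ : ℝ) / 12 ^ N ≤ 1 := by
      rw [div_le_iff₀ (by positivity)]
      exact (Int.floor_le _).trans (mul_le_mul_of_nonneg_right hx.2 (by positivity))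
    have h2 := abs_le.1 (hM _ h1)
    refine mem_biUnion (x := c) (Finset.mem_coe.2 (Finset.mem_Icc.2 ⟨?_, ?_⟩)) h1
    · have : -(K:ℝ) ≤ c := by linarith [h2.1]
      exact_mod_cast this
    · have : (c:ℝ) ≤ K := by linarith [h2.2]
      exact_mod_cast this
  have := measure_mono_null hs hz
  simp at this

theorem result : ∃ (n m : ℕ) (k : ℕ → ℕ), 2 ≤ n ∧ 1 ≤ m ∧ (∀ i < m, 0 < k i ∧ ¬ n ∣ k i) ∧
    (Finset.range m).gcd k = 1 ∧ (subsums m k).card = n ∧ 0 < volume (ach (mgeo m k n)) ∧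
    (subsums m k).image (· % n) ≠ Finset.range n :=
  ⟨12, 4, kk, by decide, by decide, by decide, by decide, by decide, pos, by decide⟩

end Pool.Agent.Results.MP_ee56ef_an.NotConverse
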